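import Pool.Agent.PFP.Defs

/-!
Polynomial-time computations with an oracle in `NP`, with a bound for the number of the rounds in
which the oracle in `NP` is asked and a bound for the length of the certificates.
-/

set_option autoImplicit false

namespace Pool.Agent.PFH

open Turing Computability Lib.helper60
open MP_92db0f_lc_alg (PolyTime join)
open PFP (Certified memory charge roundCharge)

/-- The class `Q(k, t, s, r, w, α)` relative to the oracle `O`, with one query in each round: as
`PFP.InQ`; in at most `O(n ^ r)` rounds a nonempty query is asked to the oracle in `NP`; and the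
certificates of the queries asked to the oracle in `NP` have length `O(n ^ k)`. -/
def InR (O : Set (List Bool)) (k t s r w α : ℝ) (L : Set (List Bool)) : Prop :=
  ∃ (R : List Bool × List Bool → Prop)
    (q : ((List Bool × List Bool) × List Bool) × ℕ → List Bool)
    (u : ((List Bool × List Bool) × List Bool) × List Bool → List Bool)
    (d : (List Bool × List Bool) × List Bool → Bool) (a : ℕ → List Bool)
    (N : Polynomial ℕ) (C : ℕ),
    PolyTime encPair O R ∧
    Nonempty (TM2ComputableInPolyTime
      (fun z : ((List Bool × List Bool) × List Bool) × ℕ =>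
        encPair (encPair (encPair z.1.1, z.1.2), List.replicate z.2 true)) (fun w => w) q) ∧
    Nonempty (TM2ComputableInPolyTime
      (fun z : ((List Bool × List Bool) × List Bool) × List Bool =>
        encPair (encPair (encPair z.1.1, z.1.2), z.2)) (fun w => w) u) ∧
    Nonempty (TM2ComputableInPolyTime
      (fun z : (List Bool × List Bool) × List Bool => encPair (encPair z.1, z.2)) encodeBool d) ∧
    (∀ Q y, R (Q, y) → (y.length : ℝ) ≤ C * (Q.length : ℝ) ^ t + C) ∧
    (∀ n : ℕ, ((a n).length : ℝ) ≤ C * (n : ℝ) ^ α + C) ∧
    ∀ x : List Bool,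
      (x ∈ L ↔ d ((x, a x.length), memory (join O (Certified R)) q u (x, a x.length)
        ((1 : Polynomial ℕ).eval x.length) (N.eval x.length)) = true) ∧
      (∀ i ≤ N.eval x.length, ((memory (join O (Certified R)) q u (x, a x.length)
        ((1 : Polynomial ℕ).eval x.length) i).length : ℝ) ≤ C * (x.length : ℝ) ^ w + C) ∧
      ((∑ i ∈ Finset.range (N.eval x.length),
        roundCharge (join O (Certified R)) q u (x, a x.length)
          ((1 : Polynomial ℕ).eval x.length) i : ℕ) : ℝ) ≤ C * (x.length : ℝ) ^ s + C ∧
      (({i | i < N.eval x.length ∧ roundCharge (join O (Certified R)) q u (x, a x.length)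
        ((1 : Polynomial ℕ).eval x.length) i ≠ 0}.ncard : ℕ) : ℝ) ≤
          C * (x.length : ℝ) ^ r + C ∧
      (∀ i < N.eval x.length, ∀ Q y, q (((x, a x.length),
        memory (join O (Certified R)) q u (x, a x.length)
          ((1 : Polynomial ℕ).eval x.length) i), 0) = true :: Q → R (Q, y) →
        (y.length : ℝ) ≤ C * (x.length : ℝ) ^ k + C)

end Pool.Agent.PFH
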