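import Pool.Agent.PFH.Defs
import Pool.Agent.PFP.Lower
import Pool.Agent.PFP.Upper

/-!
The machines: many short queries, or one query with advice.
-/

set_option autoImplicit false

namespace Pool.Agent.PFH

open Turing Computability Lib.helper60 MP_92db0f_lc_alg
open MP_92db0f_lc hiding answers InNEXP
open MP_92db0f_lc_thr (cls Dg sb hs Off lg rtc pcf τf lg_eq lt_τf lg_spec
  Off_mono Off_succ two_pow_τf hs_take length_hs_Dg length_sb answers_getD)
open PFP (Certified memory charge roundCharge cdHf cdVf mq md mu ma PT_mq PT_md PT_mu PT_ma ma_eq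
  mq_lt mq_eq mq_gt off_τ off_le level_pow_le length_cdHf length_cdVf sum_profile mem_join_true
  memory_eq)

/-! ### the intermediate class -/

/-- The class `Q(s, v, w, α)` with one query in each round, in which the length of every query to
the oracle in `NP` is `O(n ^ S)` and such queries that are not empty are asked in `O(n ^ r)` rounds
only. -/
def InS (O : Set (List Bool)) (v s S r w α : ℝ) (L : Set (List Bool)) : Prop :=
  ∃ (R : List Bool × List Bool → Prop)
    (q : ((List Bool × List Bool) × List Bool) × ℕ → List Bool)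
    (u : ((List Bool × List Bool) × List Bool) × List Bool → List Bool)
    (d : (List Bool × List Bool) × List Bool → Bool) (a : ℕ → List Bool)
    (N : Polynomial ℕ) (C : ℕ),
    PolyTime encPair O R ∧
    Nonempty (TM2ComputableInPolyTime
      (fun z : ((List Bool × List Bool) × List Bool) × ℕ =>
        encPair (encPair (encPair z.1.1, z.1.2), List.replicate z.2 true)) (fun w => w) q) ∧
    Nonempty (TM2ComputableInPolyTime
      (fun z : ((List Bool × List Bool) × List Bool) × List Bool =>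
        encPair (encPair (encPair z.1.1, z.1.2), z.2)) (fun w => w) u) ∧
    Nonempty (TM2ComputableInPolyTime
      (fun z : (List Bool × List Bool) × List Bool => encPair (encPair z.1, z.2)) encodeBool d) ∧
    (∀ Q y, R (Q, y) → (y.length : ℝ) ≤ C * (Q.length : ℝ) ^ v + C) ∧
    (∀ n : ℕ, ((a n).length : ℝ) ≤ C * (n : ℝ) ^ α + C) ∧
    ∀ x : List Bool,
      (x ∈ L ↔ d ((x, a x.length), memory (join O (Certified R)) q u (x, a x.length)
        1 (N.eval x.length)) = true) ∧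
      (∀ i ≤ N.eval x.length, ((memory (join O (Certified R)) q u (x, a x.length)
        1 i).length : ℝ) ≤ C * (x.length : ℝ) ^ w + C) ∧
      ((∑ i ∈ Finset.range (N.eval x.length),
        roundCharge (join O (Certified R)) q u (x, a x.length) 1 i : ℕ) : ℝ) ≤
          C * (x.length : ℝ) ^ s + C ∧
      (({i | i < N.eval x.length ∧
        roundCharge (join O (Certified R)) q u (x, a x.length) 1 i ≠ 0}.ncard : ℕ) : ℝ) ≤
          C * (x.length : ℝ) ^ r + C ∧
      ∀ i < N.eval x.length, (roundCharge (join O (Certified R)) q u (x, a x.length) 1 i : ℝ) ≤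
        C * (x.length : ℝ) ^ S + C

/-! ### the machines -/

/-- **Many short queries.** -/
theorem long_of {O L : Set (List Bool)} {R : List Bool × List Bool → Prop} {a b p q e k C₀ : ℕ}
    (hb : 1 ≤ b) (hab : b ≤ a) (hp : 1 ≤ p) (hk1 : 1 ≤ k) {v s S r w : ℝ}
    (hs1 : 1 ≤ S) (h2 : ((a : ℝ) * q) / (b * p) ≤ S) (hSs : S ≤ s)
    (h3 : (b : ℝ) / a + (q : ℝ) / p ≤ s) (h4 : (b : ℝ) / a ≤ (q : ℝ) / p) (h5 : (b : ℝ) / a ≤ w)
    (h5r : (b : ℝ) / a ≤ r) (hR : PolyTime encPair O R)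
    (hRl : ∀ Q y, R (Q, y) → (y.length : ℝ) ≤ C₀ * (Q.length : ℝ) ^ v + C₀)
    (H : ℕ → ℕ) (hcodeH : ∀ (t : ℕ) (u : List Bool), u.length < Dg t →
      (cdHf a b p q t u ∈ Certified R ↔ nn (Dg t) u ≤ H t))
    (hL : ∀ x : List Bool, x ∈ L ↔ cdVf a b p q (fun _ x => k * (x.length + 1)) (e, x)
      (hs Dg H (τf a b (k * (x.length + 1)))) ∈ Certified R) (α : ℝ) :
    InS O v s S r w α L := by
  classical
  have ha : 1 ≤ a := hb.trans hab
  have hm1 : ∀ n, 1 ≤ k * (n + 1) := fun n => Nat.mul_pos hk1 (by omega)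
  have hba0 : (0 : ℝ) ≤ (b : ℝ) / a := by positivity
  -- the answers
  obtain ⟨B, hB⟩ : ∃ B, B = Certified R := ⟨_, rfl⟩
  rw [← hB] at hcodeH
  simp only [← hB] at hL
  have hans : ∀ x : List Bool, ∀ i ≤ Off (τf a b (k * (x.length + 1))),
      answers B (mq a b p q e k) x i = (hs Dg H (τf a b (k * (x.length + 1)))).take i := by
    intro x i
    induction i with
    | zero => intro _; rfl
    | succ i ih =>
      intro hi
      obtain ⟨h1, h2⟩ := lg_spec i
      obtain ⟨t, ht⟩ : ∃ t, t = lg i := ⟨_, rfl⟩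
      obtain ⟨j, hj⟩ := Nat.exists_eq_add_of_le h1
      rw [← ht] at hj h2
      have hjD : j < Dg t := by
        rw [Off_succ] at h2
        omega
      have htτ : t < τf a b (k * (x.length + 1)) := by
        by_contra h
        have := Off_mono (not_lt.1 h)
        omega
      have h3 := ih (by omega)
      rw [answers, h3, hj, hs_take H htτ hjD.le, Nat.add_assoc, hs_take H htτ hjD, sb,
        List.append_assoc]
      congr 3
      rw [mq_lt hb hab htτ hjD (by rw [List.length_append, length_hs_Dg, length_sb]),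
        List.drop_append_of_le_length (by rw [length_hs_Dg]),
        List.drop_of_length_le (by rw [length_hs_Dg]), List.nil_append, Bool.eq_iff_iff,
        decide_eq_true_iff, decide_eq_true_iff]
      exact hcodeH t (sb (Dg t) (H t) j) (by rw [length_sb]; exact hjD)
  have hfull : ∀ x : List Bool,
      answers B (mq a b p q e k) x (Off (τf a b (k * (x.length + 1)))) =
        hs Dg H (τf a b (k * (x.length + 1))) := by
    intro x
    rw [hans x _ le_rfl, List.take_of_length_le (by rw [length_hs_Dg])]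
  -- the number of the queries
  obtain ⟨N, hN⟩ : ∃ N : Polynomial ℕ, ∀ n, N.eval n = 10 * k * (n + 1) + 1 :=
    ⟨Polynomial.C (10 * k) * (Polynomial.X + 1) + 1, fun n => by simp⟩
  have hoffN : ∀ n, Off (τf a b (k * (n + 1))) + 1 ≤ N.eval n := by
    intro n
    have h6 := two_pow_τf hb hab (hm1 n)
    rw [hN, Nat.mul_assoc]
    unfold Off
    omega
  have hmem : ∀ (x : List Bool) (i : ℕ),
      memory (join O B) (fun z => true :: mq a b p q e k (z.1.1.1, z.1.2)) (mu a b k)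
        (x, []) 1 i =
        answers B (mq a b p q e k) x (min i (Off (τf a b (k * (x.length + 1))) + 1)) :=
    fun x i => memory_eq hb hab hk1 _ _ x i
  -- the constant
  obtain ⟨K, hK⟩ : ∃ K : ℝ, K = 20 * (2 * ((10 : ℝ) ^ ((q : ℝ) / p) + 1) + 31) +
    (2 * ((30 : ℝ) ^ ((q : ℝ) / p) + 1) + 21 + 2 * e) := ⟨_, rfl⟩
  have hk0 : (0 : ℝ) ≤ k := Nat.cast_nonneg k
  have he0 : (0 : ℝ) ≤ e := Nat.cast_nonneg e
  have hK0 : (0 : ℝ) ≤ K := by
    rw [hK]
    positivity
  obtain ⟨C, hC⟩ := exists_nat_ge (K * (2 * ((k : ℝ) + 1)) ^ s + K * (2 * ((k : ℝ) + 1)) ^ S +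
    21 * (2 * ((k : ℝ) + 1)) ^ w + 21 * (2 * ((k : ℝ) + 1)) ^ r + C₀ + 1)
  have hks : (0 : ℝ) ≤ (2 * ((k : ℝ) + 1)) ^ s := by positivity
  have hkS : (0 : ℝ) ≤ (2 * ((k : ℝ) + 1)) ^ S := by positivity
  have hkw : (0 : ℝ) ≤ (2 * ((k : ℝ) + 1)) ^ w := by positivity
  have hkr : (0 : ℝ) ≤ (2 * ((k : ℝ) + 1)) ^ r := by positivity
  have hKs : 0 ≤ K * (2 * ((k : ℝ) + 1)) ^ s := mul_nonneg hK0 hks
  have hKS : 0 ≤ K * (2 * ((k : ℝ) + 1)) ^ S := mul_nonneg hK0 hkS
  have hC₀ : (0 : ℝ) ≤ C₀ := Nat.cast_nonneg C₀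
  refine ⟨R, fun z => true :: mq a b p q e k (z.1.1.1, z.1.2), mu a b k,
    fun z => md a b k (z.1.1, z.2), fun _ => [], N, C, hR, ?_, ?_, ?_, ?_, ?_,
    fun x => ?_⟩
  · have h6 : PT (fun w : List Bool => unpair (unpair w).1) := PT_unpair.comp PT_unpair.p1
    refine PT.toTM2 (F := fun w => true :: mq a b p q e k ((unpair (unpair (unpair w).1).1).1,
      (unpair (unpair w).1).2)) (PT.cons (PT.const true) ((PT_mq e k).comp
        (PT.pair (PT_unpair.comp h6.p1).p1 h6.p2))) ?_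
    intro z
    simp only [unpair_enc]
  · have h6 : PT (fun w : List Bool => unpair (unpair w).1) := PT_unpair.comp PT_unpair.p1
    refine PT.toTM2 (F := fun w => mu a b k ((unpair (unpair (unpair w).1).1,
      (unpair (unpair w).1).2), (unpair w).2)) ((PT_mu k).comp (PT.pair (PT.pair
        (PT_unpair.comp h6.p1) h6.p2) PT_unpair.p2)) ?_
    intro z
    simp only [unpair_enc]
  · refine PT.decider (F := fun w => md a b k ((unpair (unpair w).1).1, (unpair w).2))
      ((PT_md k).comp (PT.pair (PT_unpair.comp PT_unpair.p1).p1 PT_unpair.p2)) ?_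
    intro z
    simp only [unpair_enc]
  · intro Q y hy
    have h6 := hRl Q y hy
    have h8 : (0 : ℝ) ≤ (Q.length : ℝ) ^ v := Real.rpow_nonneg (Nat.cast_nonneg _) _
    have h9 := mul_le_mul_of_nonneg_right (show (C₀ : ℝ) ≤ C by linarith) h8
    linarith
  · intro n
    have h6 : (0 : ℝ) ≤ (n : ℝ) ^ α := Real.rpow_nonneg (Nat.cast_nonneg _) _
    simp only [List.length_nil, Nat.cast_zero]
    positivity
  -- the charges
  obtain ⟨m, hm⟩ : ∃ m, m = k * (x.length + 1) := ⟨_, rfl⟩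
  obtain ⟨X, hX⟩ : ∃ X : ℝ, X = m + 1 := ⟨_, rfl⟩
  have hX1 : (1 : ℝ) ≤ X := by
    rw [hX]
    have : (0 : ℝ) ≤ m := Nat.cast_nonneg m
    linarith
  obtain ⟨ρ, hρ⟩ : ∃ ρ : ℕ → ℕ, ρ = fun i => roundCharge (join O B)
    (fun z => true :: mq a b p q e k (z.1.1.1, z.1.2)) (mu a b k) (x, []) 1 i := ⟨_, rfl⟩
  have hρe : ∀ i, roundCharge (join O B)
    (fun z => true :: mq a b p q e k (z.1.1.1, z.1.2)) (mu a b k) (x, []) 1 i = ρ i :=
    fun i => by rw [hρ]
  have hr1 : ∀ i, ρ i = (mq a b p q e k (x, answers B (mq a b p q e k) x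
      (min i (Off (τf a b m) + 1)))).length := by
    intro i
    rw [hρ]
    unfold roundCharge
    simp only [Finset.range_one, Finset.sup_singleton]
    rw [hmem, hm]
    rfl
  have hvl : ∀ i, (answers B (mq a b p q e k) x i).length = i := fun i => answers_length _ _ _ _
  have hr2 : ∀ i, Off (τf a b m) < i → ρ i = 0 := by
    intro i hi
    rw [hr1, min_eq_right (by omega), mq_gt hb hab hk1 (by rw [hvl, ← hm]; omega)]
    rfl
  have hr4 : ∀ i < Off (τf a b m), ((ρ i : ℕ) : ℝ) ≤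
      (2 * ((10 : ℝ) ^ ((q : ℝ) / p) + 1) + 31) * X ^ ((q : ℝ) / p) := by
    intro i hi
    obtain ⟨h7, h8⟩ := lg_spec i
    obtain ⟨j, hj⟩ := Nat.exists_eq_add_of_le h7
    have hjD : j < Dg (lg i) := by
      rw [Off_succ] at h8
      omega
    have htτ : lg i < τf a b m := by
      by_contra h'
      have := Off_mono (not_lt.1 h')
      omega
    rw [hr1, min_eq_left (by omega),
      mq_lt hb hab (by rw [← hm]; exact htτ) hjD (by rw [hvl]; exact hj)]
    exact length_cdHf hb hab hp h4 htτ (by rw [List.length_drop, hvl]; omega) hX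
  have hr5 : ((ρ (Off (τf a b m)) : ℕ) : ℝ) ≤
      (2 * ((30 : ℝ) ^ ((q : ℝ) / p) + 1) + 21 + 2 * e) * X ^ S := by
    rw [hr1, min_eq_left (by omega), mq_eq hb hab hk1 (by rw [hvl, hm])]
    exact length_cdVf hb hab hp hs1 h2 hk1 hm (by rw [hvl]) hX
  have hXS : X ^ S ≤ X ^ s := Real.rpow_le_rpow_of_exponent_le hX1 hSs
  have hqS : (q : ℝ) / p ≤ S := by
    refine le_trans ?_ h2
    rw [← div_mul_div_comm]
    have h6 : (1 : ℝ) ≤ (a : ℝ) / b := by
      rw [le_div_iff₀ (by exact_mod_cast hb), one_mul]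
      exact_mod_cast hab
    have h7 : (0 : ℝ) ≤ (q : ℝ) / p := by positivity
    nlinarith
  have hr6 : ∀ i, ((ρ i : ℕ) : ℝ) ≤ K * X ^ S := by
    intro i
    have h8 : (0 : ℝ) ≤ X ^ S := Real.rpow_nonneg (by linarith) _
    rcases lt_trichotomy i (Off (τf a b m)) with h | h | h
    · have h6 := hr4 i h
      have h7 : X ^ ((q : ℝ) / p) ≤ X ^ S := Real.rpow_le_rpow_of_exponent_le hX1 hqS
      have h9 : (2 * ((10 : ℝ) ^ ((q : ℝ) / p) + 1) + 31) * X ^ ((q : ℝ) / p) ≤
          (2 * ((10 : ℝ) ^ ((q : ℝ) / p) + 1) + 31) * X ^ S :=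
        mul_le_mul_of_nonneg_left h7 (by positivity)
      have h10 : (2 * ((10 : ℝ) ^ ((q : ℝ) / p) + 1) + 31) ≤ K := by
        rw [hK]
        have h11 : (0 : ℝ) ≤ (10 : ℝ) ^ ((q : ℝ) / p) := by positivity
        have h12 : (0 : ℝ) ≤ (30 : ℝ) ^ ((q : ℝ) / p) := by positivity
        linarith
      exact (h6.trans h9).trans (mul_le_mul_of_nonneg_right h10 h8)
    · rw [h]
      refine hr5.trans (mul_le_mul_of_nonneg_right ?_ h8)
      rw [hK]
      have h11 : (0 : ℝ) ≤ (10 : ℝ) ^ ((q : ℝ) / p) := by positivity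
      linarith
    · rw [hr2 i h, Nat.cast_zero]
      exact mul_nonneg hK0 h8
  rw [← hB]
  simp only [hρe]
  refine ⟨?_, ?_, ?_, ?_, ?_⟩
  · -- the decision
    rw [hmem, min_eq_right (hoffN _)]
    unfold md
    dsimp only
    rw [off_τ hb hab (hm1 _), answers_getD B _ _ (Nat.lt_succ_self _), hfull x,
      mq_eq hb hab hk1 (by rw [length_hs_Dg]), decide_eq_true_eq]
    exact hL x
  · -- the memory
    intro i _
    rw [hmem, answers_length]
    have h6 := off_le hb hab hX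
    rw [hm] at h6
    have h7 : X ^ ((b : ℝ) / a) ≤ X ^ w := Real.rpow_le_rpow_of_exponent_le hX1 h5
    have h8 := level_pow_le (X := X) (k := k) (n := x.length) (by rw [hX, hm]) (hba0.trans h5)
    have h9 : (1 : ℝ) ≤ X ^ w := Real.one_le_rpow hX1 (hba0.trans h5)
    have h10 : ((min i (Off (τf a b (k * (x.length + 1))) + 1) : ℕ) : ℝ) ≤
        ((Off (τf a b (k * (x.length + 1))) : ℕ) : ℝ) + 1 := by
      exact_mod_cast min_le_right _ _
    have h11 : (0 : ℝ) ≤ (x.length : ℝ) ^ w := Real.rpow_nonneg (Nat.cast_nonneg _) _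
    calc ((min i (Off (τf a b (k * (x.length + 1))) + 1) : ℕ) : ℝ) ≤ 21 * X ^ w := by linarith
      _ ≤ 21 * ((2 * ((k : ℝ) + 1)) ^ w * ((x.length : ℝ) ^ w + 1)) :=
          mul_le_mul_of_nonneg_left h8 (by norm_num)
      _ = (21 * (2 * ((k : ℝ) + 1)) ^ w) * ((x.length : ℝ) ^ w + 1) := by ring
      _ ≤ C * ((x.length : ℝ) ^ w + 1) := mul_le_mul_of_nonneg_right (by linarith) (by linarith)
      _ = C * (x.length : ℝ) ^ w + C := by ring
  · -- the total length
    have hr3 : ∑ i ∈ Finset.range (N.eval x.length), ρ i =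
        ∑ i ∈ Finset.range (Off (τf a b m) + 1), ρ i := by
      refine (Finset.sum_subset (Finset.range_subset_range.2 (by
        rw [hm]
        exact hoffN x.length)) ?_).symm
      intro i _ hi
      rw [Finset.mem_range, not_lt] at hi
      exact hr2 i hi
    have h6 : ((∑ i ∈ Finset.range (Off (τf a b m) + 1), ρ i : ℕ) : ℝ) ≤
        Off (τf a b m) * ((2 * ((10 : ℝ) ^ ((q : ℝ) / p) + 1) + 31) * X ^ ((q : ℝ) / p)) +
          (2 * ((30 : ℝ) ^ ((q : ℝ) / p) + 1) + 21 + 2 * e) * X ^ s := by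
      rw [Nat.cast_sum]
      exact sum_profile (fun i => ((ρ i : ℕ) : ℝ)) hr4
        (hr5.trans (mul_le_mul_of_nonneg_left hXS (by positivity)))
    have h7 := off_le hb hab hX
    have h8 : X ^ ((b : ℝ) / a) * X ^ ((q : ℝ) / p) ≤ X ^ s := by
      rw [← Real.rpow_add (by linarith)]
      exact Real.rpow_le_rpow_of_exponent_le hX1 h3
    have h10 : ((Off (τf a b m) : ℕ) : ℝ) *
        ((2 * ((10 : ℝ) ^ ((q : ℝ) / p) + 1) + 31) * X ^ ((q : ℝ) / p)) ≤
          20 * (2 * ((10 : ℝ) ^ ((q : ℝ) / p) + 1) + 31) * X ^ s := by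
      calc ((Off (τf a b m) : ℕ) : ℝ) *
            ((2 * ((10 : ℝ) ^ ((q : ℝ) / p) + 1) + 31) * X ^ ((q : ℝ) / p)) ≤
            (20 * X ^ ((b : ℝ) / a)) *
              ((2 * ((10 : ℝ) ^ ((q : ℝ) / p) + 1) + 31) * X ^ ((q : ℝ) / p)) :=
            mul_le_mul_of_nonneg_right h7 (by positivity)
        _ = 20 * (2 * ((10 : ℝ) ^ ((q : ℝ) / p) + 1) + 31) *
              (X ^ ((b : ℝ) / a) * X ^ ((q : ℝ) / p)) := by ring
        _ ≤ _ := mul_le_mul_of_nonneg_left h8 (by positivity)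
    have h11 : X ^ s ≤ (2 * ((k : ℝ) + 1)) ^ s * ((x.length : ℝ) ^ s + 1) :=
      level_pow_le (by rw [hX, hm]) (by linarith)
    have h12 : (0 : ℝ) ≤ (x.length : ℝ) ^ s := Real.rpow_nonneg (Nat.cast_nonneg _) _
    rw [hr3]
    calc ((∑ i ∈ Finset.range (Off (τf a b m) + 1), ρ i : ℕ) : ℝ) ≤ K * X ^ s := by
          rw [hK]
          linarith
      _ ≤ K * ((2 * ((k : ℝ) + 1)) ^ s * ((x.length : ℝ) ^ s + 1)) :=
          mul_le_mul_of_nonneg_left h11 hK0
      _ = (K * (2 * ((k : ℝ) + 1)) ^ s) * ((x.length : ℝ) ^ s + 1) := by ring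
      _ ≤ C * ((x.length : ℝ) ^ s + 1) := mul_le_mul_of_nonneg_right (by linarith) (by linarith)
      _ = C * (x.length : ℝ) ^ s + C := by ring
  · -- the number of the rounds
    have h6 : ({i | i < N.eval x.length ∧ ρ i ≠ 0}.ncard : ℕ) ≤ Off (τf a b m) + 1 := by
      have h7 : {i | i < N.eval x.length ∧ ρ i ≠ 0} ⊆
          ((Finset.range (Off (τf a b m) + 1) : Finset ℕ) : Set ℕ) := by
        intro i hi
        rw [Finset.coe_range, Set.mem_Iio]
        by_contra h8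
        exact hi.2 (hr2 i (by omega))
      refine (Set.ncard_le_ncard h7 (Finset.finite_toSet _)).trans ?_
      rw [Set.ncard_coe_finset, Finset.card_range]
    have h7 : (({i | i < N.eval x.length ∧ ρ i ≠ 0}.ncard : ℕ) : ℝ) ≤
        ((Off (τf a b m) : ℕ) : ℝ) + 1 := by exact_mod_cast h6
    have h8 := off_le hb hab hX
    have h9 : X ^ ((b : ℝ) / a) ≤ X ^ r := Real.rpow_le_rpow_of_exponent_le hX1 h5r
    have h10 := level_pow_le (X := X) (k := k) (n := x.length) (by rw [hX, hm]) (hba0.trans h5r)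
    have h11 : (1 : ℝ) ≤ X ^ r := Real.one_le_rpow hX1 (hba0.trans h5r)
    have h12 : (0 : ℝ) ≤ (x.length : ℝ) ^ r := Real.rpow_nonneg (Nat.cast_nonneg _) _
    calc (({i | i < N.eval x.length ∧ ρ i ≠ 0}.ncard : ℕ) : ℝ) ≤ 21 * X ^ r := by linarith
      _ ≤ 21 * ((2 * ((k : ℝ) + 1)) ^ r * ((x.length : ℝ) ^ r + 1)) :=
          mul_le_mul_of_nonneg_left h10 (by norm_num)
      _ = (21 * (2 * ((k : ℝ) + 1)) ^ r) * ((x.length : ℝ) ^ r + 1) := by ring
      _ ≤ C * ((x.length : ℝ) ^ r + 1) := mul_le_mul_of_nonneg_right (by linarith) (by linarith)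
      _ = C * (x.length : ℝ) ^ r + C := by ring
  · -- the lengths
    intro i _
    have h11 : X ^ S ≤ (2 * ((k : ℝ) + 1)) ^ S * ((x.length : ℝ) ^ S + 1) :=
      level_pow_le (by rw [hX, hm]) (by linarith)
    have h12 : (0 : ℝ) ≤ (x.length : ℝ) ^ S := Real.rpow_nonneg (Nat.cast_nonneg _) _
    calc ((ρ i : ℕ) : ℝ) ≤ K * X ^ S := hr6 i
      _ ≤ K * ((2 * ((k : ℝ) + 1)) ^ S * ((x.length : ℝ) ^ S + 1)) :=
          mul_le_mul_of_nonneg_left h11 hK0
      _ = (K * (2 * ((k : ℝ) + 1)) ^ S) * ((x.length : ℝ) ^ S + 1) := by ring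
      _ ≤ C * ((x.length : ℝ) ^ S + 1) := mul_le_mul_of_nonneg_right (by linarith) (by linarith)
      _ = C * (x.length : ℝ) ^ S + C := by ring

/-- **One query with advice.** -/
theorem adv_of {O L : Set (List Bool)} {R : List Bool × List Bool → Prop} {a b p q e k C₀ : ℕ}
    (hb : 1 ≤ b) (hab : b ≤ a) (hp : 1 ≤ p) (hk1 : 1 ≤ k) {v s S α : ℝ}
    (hs1 : 1 ≤ S) (h2 : ((a : ℝ) * q) / (b * p) ≤ S) (hSs : S ≤ s) (h5 : (b : ℝ) / a ≤ α)
    (hR : PolyTime encPair O R)
    (hRl : ∀ Q y, R (Q, y) → (y.length : ℝ) ≤ C₀ * (Q.length : ℝ) ^ v + C₀) (H : ℕ → ℕ)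
    (hL : ∀ x : List Bool, x ∈ L ↔ cdVf a b p q (fun _ x => k * (x.length + 1)) (e, x)
      (hs Dg H (τf a b (k * (x.length + 1)))) ∈ Certified R) (r w : ℝ) :
    InS O v s S r w α L := by
  classical
  have ha : 1 ≤ a := hb.trans hab
  have hm1 : ∀ n, 1 ≤ k * (n + 1) := fun n => Nat.mul_pos hk1 (by omega)
  have hba0 : (0 : ℝ) ≤ (b : ℝ) / a := by positivity
  obtain ⟨B, hB⟩ : ∃ B, B = Certified R := ⟨_, rfl⟩
  simp only [← hB] at hL
  -- the constant
  obtain ⟨K, hK⟩ : ∃ K : ℝ, K = 2 * ((30 : ℝ) ^ ((q : ℝ) / p) + 1) + 21 + 2 * e := ⟨_, rfl⟩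
  have hk0 : (0 : ℝ) ≤ k := Nat.cast_nonneg k
  have he0 : (0 : ℝ) ≤ e := Nat.cast_nonneg e
  have hK0 : (0 : ℝ) ≤ K := by
    rw [hK]
    positivity
  obtain ⟨C, hC⟩ := exists_nat_ge (K * (2 * ((k : ℝ) + 1)) ^ s + K * (2 * ((k : ℝ) + 1)) ^ S +
    20 * (2 * ((k : ℝ) + 1)) ^ α + C₀ + 1)
  have hkS : (0 : ℝ) ≤ (2 * ((k : ℝ) + 1)) ^ S := by positivity
  have hKS : 0 ≤ K * (2 * ((k : ℝ) + 1)) ^ S := mul_nonneg hK0 hkS
  have hC₀ : (0 : ℝ) ≤ C₀ := Nat.cast_nonneg C₀
  have hks : (0 : ℝ) ≤ (2 * ((k : ℝ) + 1)) ^ s := by positivity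
  have hkα : (0 : ℝ) ≤ (2 * ((k : ℝ) + 1)) ^ α := by positivity
  have hKs : 0 ≤ K * (2 * ((k : ℝ) + 1)) ^ s := mul_nonneg hK0 hks
  refine ⟨R, fun z => true :: ma a b p q e k z.1.1, fun z => z.2,
    fun z => z.2.headD false, fun n => hs Dg H (τf a b (k * (n + 1))), 1, C,
    hR, ?_, ?_, ?_, ?_, ?_, fun x => ⟨?_, ?_, ?_, ?_, ?_⟩⟩
  · have h6 : PT (fun w : List Bool => unpair (unpair w).1) := PT_unpair.comp PT_unpair.p1
    refine PT.toTM2 (F := fun w => true :: ma a b p q e k (unpair (unpair (unpair w).1).1))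
      (PT.cons (PT.const true) ((PT_ma e k).comp (PT_unpair.comp h6.p1))) ?_
    intro z
    simp only [unpair_enc]
  · refine PT.toTM2 (F := fun w => (unpair w).2) PT_unpair.p2 ?_
    intro z
    simp only [unpair_enc]
  · refine PT.decider (F := fun w => (unpair w).2.headD false)
      (PT.headD PT_unpair.p2 (PT.const false)) ?_
    intro z
    simp only [unpair_enc]
  · intro Q y hy
    have h6 := hRl Q y hy
    have h8 : (0 : ℝ) ≤ (Q.length : ℝ) ^ v := Real.rpow_nonneg (Nat.cast_nonneg _) _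
    have h9 := mul_le_mul_of_nonneg_right (show (C₀ : ℝ) ≤ C by linarith) h8
    linarith
  · intro n
    rw [length_hs_Dg]
    obtain ⟨X, hX⟩ : ∃ X : ℝ, X = ((k * (n + 1) : ℕ) : ℝ) + 1 := ⟨_, rfl⟩
    have hX1 : (1 : ℝ) ≤ X := by
      rw [hX]
      have : (0 : ℝ) ≤ ((k * (n + 1) : ℕ) : ℝ) := Nat.cast_nonneg _
      linarith
    have h6 := off_le hb hab hX
    have h7 : X ^ ((b : ℝ) / a) ≤ X ^ α := Real.rpow_le_rpow_of_exponent_le hX1 h5
    have h8 := level_pow_le hX (hba0.trans h5)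
    have h11 : (0 : ℝ) ≤ (n : ℝ) ^ α := Real.rpow_nonneg (Nat.cast_nonneg _) _
    calc ((Off (τf a b (k * (n + 1))) : ℕ) : ℝ) ≤ 20 * X ^ α := by linarith
      _ ≤ 20 * ((2 * ((k : ℝ) + 1)) ^ α * ((n : ℝ) ^ α + 1)) :=
          mul_le_mul_of_nonneg_left h8 (by norm_num)
      _ = (20 * (2 * ((k : ℝ) + 1)) ^ α) * ((n : ℝ) ^ α + 1) := by ring
      _ ≤ C * ((n : ℝ) ^ α + 1) := mul_le_mul_of_nonneg_right (by linarith) (by linarith)
      _ = C * (n : ℝ) ^ α + C := by ring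
  · -- the decision
    rw [← hB, Polynomial.eval_one]
    change x ∈ L ↔ List.headD [decide (true :: ma a b p q e k
      (x, hs Dg H (τf a b (k * (x.length + 1)))) ∈ join O B)] false = true
    rw [List.headD_cons, decide_eq_true_eq, mem_join_true, ma_eq]
    exact hL x
  · -- the memory
    intro i _
    rw [← hB]
    have h6 : (memory (join O B) (fun z => true :: ma a b p q e k z.1.1) (fun z => z.2)
        (x, hs Dg H (τf a b (k * (x.length + 1)))) 1 i).length ≤ 1 := by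
      rcases i with _ | i
      · exact Nat.zero_le _
      · rw [memory]
        simp
    have h7 : ((memory (join O B) (fun z => true :: ma a b p q e k z.1.1)
        (fun z => z.2) (x, hs Dg H (τf a b (k * (x.length + 1)))) 1 i).length : ℝ) ≤ 1 := by
      exact_mod_cast h6
    have h8 : (0 : ℝ) ≤ (x.length : ℝ) ^ w := Real.rpow_nonneg (Nat.cast_nonneg _) _
    have h9 : (1 : ℝ) ≤ C := by linarith
    nlinarith
  · -- the total length
    rw [← hB, Polynomial.eval_one, Finset.sum_range_one]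
    unfold roundCharge
    simp only [Finset.range_one, Finset.sup_singleton, charge]
    rw [ma_eq]
    obtain ⟨m, hm⟩ : ∃ m, m = k * (x.length + 1) := ⟨_, rfl⟩
    obtain ⟨X, hX⟩ : ∃ X : ℝ, X = m + 1 := ⟨_, rfl⟩
    have h6 := length_cdVf (q := q) (e := e) hb hab hp (hs1.trans hSs) (h2.trans hSs) hk1 hm
      (v := hs Dg H (τf a b (k * (x.length + 1)))) (by rw [length_hs_Dg, hm]) hX
    have h11 : X ^ s ≤ (2 * ((k : ℝ) + 1)) ^ s * ((x.length : ℝ) ^ s + 1) :=
      level_pow_le (by rw [hX, hm]) (by linarith)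
    have h12 : (0 : ℝ) ≤ (x.length : ℝ) ^ s := Real.rpow_nonneg (Nat.cast_nonneg _) _
    rw [← hK] at h6
    refine h6.trans ?_
    calc K * X ^ s ≤ K * ((2 * ((k : ℝ) + 1)) ^ s * ((x.length : ℝ) ^ s + 1)) :=
          mul_le_mul_of_nonneg_left h11 hK0
      _ = (K * (2 * ((k : ℝ) + 1)) ^ s) * ((x.length : ℝ) ^ s + 1) := by ring
      _ ≤ C * ((x.length : ℝ) ^ s + 1) := mul_le_mul_of_nonneg_right (by linarith) (by linarith)
      _ = C * (x.length : ℝ) ^ s + C := by ring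
  · -- the number of the rounds
    rw [Polynomial.eval_one]
    have h6 : ∀ S' : Set ℕ, S' ⊆ ((Finset.range 1 : Finset ℕ) : Set ℕ) → ((S'.ncard : ℕ) : ℝ) ≤ 1 := by
      intro S' h7
      have h8 := Set.ncard_le_ncard h7 (Finset.finite_toSet _)
      rw [Set.ncard_coe_finset, Finset.card_range] at h8
      exact_mod_cast h8
    have h8 : (0 : ℝ) ≤ (x.length : ℝ) ^ r := Real.rpow_nonneg (Nat.cast_nonneg _) _
    have h9 : (1 : ℝ) ≤ C := by linarith
    refine (h6 _ ?_).trans (by nlinarith)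
    intro i hi
    rw [Finset.coe_range, Set.mem_Iio]
    exact hi.1
  · -- the lengths
    intro i hi
    rw [Polynomial.eval_one] at hi
    obtain rfl : i = 0 := by omega
    rw [← hB]
    unfold roundCharge
    simp only [Finset.range_one, Finset.sup_singleton, charge]
    rw [ma_eq]
    obtain ⟨m, hm⟩ : ∃ m, m = k * (x.length + 1) := ⟨_, rfl⟩
    obtain ⟨X, hX⟩ : ∃ X : ℝ, X = m + 1 := ⟨_, rfl⟩
    have h6 := length_cdVf (q := q) (e := e) hb hab hp hs1 h2 hk1 hm
      (v := hs Dg H (τf a b (k * (x.length + 1)))) (by rw [length_hs_Dg, hm]) hX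
    have h11 : X ^ S ≤ (2 * ((k : ℝ) + 1)) ^ S * ((x.length : ℝ) ^ S + 1) :=
      level_pow_le (by rw [hX, hm]) (by linarith)
    have h12 : (0 : ℝ) ≤ (x.length : ℝ) ^ S := Real.rpow_nonneg (Nat.cast_nonneg _) _
    rw [← hK] at h6
    refine h6.trans ?_
    calc K * X ^ S ≤ K * ((2 * ((k : ℝ) + 1)) ^ S * ((x.length : ℝ) ^ S + 1)) :=
          mul_le_mul_of_nonneg_left h11 hK0
      _ = (K * (2 * ((k : ℝ) + 1)) ^ S) * ((x.length : ℝ) ^ S + 1) := by ring
      _ ≤ C * ((x.length : ℝ) ^ S + 1) := mul_le_mul_of_nonneg_right (by linarith) (by linarith)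
      _ = C * (x.length : ℝ) ^ S + C := by ring

/-! ### the certificates of the queries -/

lemma InS.inR {O L : Set (List Bool)} {k t v s S r w α : ℝ} (hv : 0 < v) (hvt : v ≤ t)
    (hS : 0 ≤ S) (hSv : S * v ≤ k) (h : InS O v s S r w α L) : InR O k t s r w α L := by
  classical
  obtain ⟨R, q, u, d, a, N, C, hR, hq, hu, hd, hRl, ha, hx⟩ := h
  obtain ⟨E, hE⟩ := exists_nat_ge (C * (2 * C : ℝ) ^ v)
  obtain ⟨K, hK⟩ : ∃ K, K = 2 * E + 2 * C := ⟨_, rfl⟩
  have hC0 : (0 : ℝ) ≤ C := Nat.cast_nonneg C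
  have hE0 : (0 : ℝ) ≤ E := Nat.cast_nonneg E
  have hKe : (K : ℝ) = 2 * E + 2 * C := by
    rw [hK]
    push_cast
    ring
  have hup : ∀ (n : ℕ) (e : ℝ), (C : ℝ) * (n : ℝ) ^ e + C ≤ K * (n : ℝ) ^ e + K := by
    intro n e
    have h1 : (0 : ℝ) ≤ (n : ℝ) ^ e := Real.rpow_nonneg (Nat.cast_nonneg _) _
    have h2 := mul_le_mul_of_nonneg_right (show (C : ℝ) ≤ K by linarith) h1
    linarith
  have hmono : ∀ (n : ℕ) {e f : ℝ}, e ≤ f → (n : ℝ) ^ e ≤ (n : ℝ) ^ f + 1 := by
    intro n e f hef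
    rcases Nat.eq_zero_or_pos n with rfl | hn
    · have h1 : ((0 : ℕ) : ℝ) ^ e ≤ 1 := by
        rw [Nat.cast_zero]
        exact Real.zero_rpow_le_one e
      have h2 : (0 : ℝ) ≤ ((0 : ℕ) : ℝ) ^ f := Real.rpow_nonneg (Nat.cast_nonneg _) _
      linarith
    · have h1 : (n : ℝ) ^ e ≤ (n : ℝ) ^ f :=
        Real.rpow_le_rpow_of_exponent_le (by exact_mod_cast hn) hef
      linarith
  refine ⟨R, q, u, d, a, N, K, hR, hq, hu, hd, fun Q y hy => ?_, fun n => (ha n).trans (hup n _),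
    fun x => ?_⟩
  · have h1 := hRl Q y hy
    have h2 := mul_le_mul_of_nonneg_left (hmono Q.length hvt) hC0
    have h3 : (0 : ℝ) ≤ (Q.length : ℝ) ^ t := Real.rpow_nonneg (Nat.cast_nonneg _) _
    have h4 := mul_le_mul_of_nonneg_right (show (C : ℝ) ≤ K by linarith) h3
    linarith
  · obtain ⟨h1, h2, h3, h4, h5⟩ := hx x
    simp only [Polynomial.eval_one]
    refine ⟨h1, fun i hi => (h2 i hi).trans (hup _ _), h3.trans (hup _ _), h4.trans (hup _ _),
      fun i hi Q y hQ hy => ?_⟩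
    have h6 := h5 i hi
    have h7 : roundCharge (join O (Certified R)) q u (x, a x.length) 1 i = Q.length := by
      unfold roundCharge
      simp only [Finset.range_one, Finset.sup_singleton]
      rw [hQ]
      rfl
    rw [h7] at h6
    have h8 := PFP.rpow_bound hS hv (Nat.cast_nonneg Q.length) h6
    have h9 := hRl Q y hy
    have h10 := mul_le_mul_of_nonneg_left h8 hC0
    have h11 : (0 : ℝ) ≤ (x.length : ℝ) ^ (S * v) := Real.rpow_nonneg (Nat.cast_nonneg _) _
    have h12 : C * ((2 * C : ℝ) ^ v * ((x.length : ℝ) ^ (S * v) + 1)) ≤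
        E * ((x.length : ℝ) ^ (S * v) + 1) := by
      rw [← mul_assoc]
      exact mul_le_mul_of_nonneg_right hE (by linarith)
    have h13 := mul_le_mul_of_nonneg_left (hmono x.length hSv) hE0
    have h14 : (0 : ℝ) ≤ (x.length : ℝ) ^ k := Real.rpow_nonneg (Nat.cast_nonneg _) _
    have h15 := mul_le_mul_of_nonneg_right (show (E : ℝ) ≤ K by linarith) h14
    linarith

end Pool.Agent.PFH
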