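import Pool.Agent.PFP.Num

/-!
The choice of rational exponents, when the certificates have length `O(n ^ k)`.
-/

set_option autoImplicit false

namespace Pool.Agent.PFH

open PFP (exists_rat_between exists_nums_aux)

theorem exists_nums_aux1 {s t k w : ℝ} (ht : 0 < t) (htk : t ≤ k) (hk : 1 < k)
    (hs : 1 < k * (s - 1 / t)) (hw : 1 < k * w) :
    ∃ a b p q : ℕ, 1 ≤ b ∧ b ≤ a ∧ 1 ≤ q ∧ 1 ≤ p ∧ (p : ℝ) / q ≤ t ∧
      ((a : ℝ) * q) / (b * p) ≤ k / t ∧ (b : ℝ) / a + (q : ℝ) / p ≤ s ∧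
      (b : ℝ) / a ≤ (q : ℝ) / p ∧ (b : ℝ) / a ≤ w := by
  have hk0 : 0 < k := zero_lt_one.trans hk
  obtain ⟨f, hf⟩ : ∃ f, f = k / t := ⟨_, rfl⟩
  have hft : f * t = k := by rw [hf]; field_simp
  have hf1 : 1 ≤ f := by rw [hf, le_div_iff₀ ht]; linarith
  have hf0 : 0 < f := zero_lt_one.trans_le hf1
  have hw0 : 0 < w := by
    by_contra h
    have h2 : k * w ≤ 0 := mul_nonpos_of_nonneg_of_nonpos hk0.le (not_lt.1 h)
    linarith
  have hs' : 1 + f < s * k := by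
    have h1 : k * (s - 1 / t) = s * k - f := by
      rw [hf]
      ring
    linarith
  have hs0 : 0 < s := by
    by_contra h
    have h2 : s * k ≤ 0 := mul_nonpos_of_nonpos_of_nonneg (not_lt.1 h) hk0.le
    linarith
  have h1 : 1 / f < t := by
    rw [div_lt_iff₀ hf0, mul_comm]
    linarith
  have h2 : (1 + f) / (s * f) < t := by
    rw [div_lt_iff₀ (by positivity)]
    nlinarith
  have h3 : 1 / (w * f) < t := by
    rw [div_lt_iff₀ (by positivity)]
    nlinarith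
  obtain ⟨T, hT1, hT2⟩ := exists_rat_btwn (max_lt h1 (max_lt h2 h3))
  have hT3 := (le_max_left _ _).trans_lt hT1
  have hT4 := ((le_max_left _ _).trans (le_max_right _ _)).trans_lt hT1
  have hT5 := ((le_max_right _ _).trans (le_max_right _ _)).trans_lt hT1
  have hT0 : (0 : ℝ) < T := (by positivity : (0 : ℝ) < 1 / f).trans hT3
  rw [div_lt_iff₀ hf0] at hT3
  rw [div_lt_iff₀ (by positivity)] at hT4 hT5
  have h4 : 1 < f * (s * T - 1) := by nlinarith
  have h5 : 0 < s * T - 1 := by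
    by_contra hc
    have : f * (s * T - 1) ≤ 0 := mul_nonpos_of_nonneg_of_nonpos hf0.le (not_lt.mp hc)
    linarith
  have h6 : 1 / (s * T - 1) < f := by
    rw [div_lt_iff₀ h5]
    linarith
  have h7 : 1 / T < f := by
    rw [div_lt_iff₀ hT0]
    linarith
  have h8 : 1 / (T * w) < f := by
    rw [div_lt_iff₀ (by positivity)]
    linarith
  obtain ⟨S, hS1, hS2, hS3⟩ := exists_rat_between hf1 (max_lt h6 (max_lt h7 h8))
  have hS4 := (le_max_left _ _).trans_lt hS3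
  have hS5 := ((le_max_left _ _).trans (le_max_right _ _)).trans_lt hS3
  have hS6 := ((le_max_right _ _).trans (le_max_right _ _)).trans_lt hS3
  rw [div_lt_iff₀ h5] at hS4
  rw [div_lt_iff₀ hT0] at hS5
  rw [div_lt_iff₀ (by positivity)] at hS6
  have hS0 : (0 : ℝ) < S := zero_lt_one.trans_le hS1
  obtain ⟨a, b, p, q, hb, hab, hq, hp, h9, h10, h11, h12⟩ :=
    exists_nums_aux hS1 hS2 hT0 hT2.le hS5.le
  refine ⟨a, b, p, q, hb, hab, hq, hp, h9, by rw [← hf]; exact h10, ?_, ?_, ?_⟩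
  · rw [h11, h12, div_add_div _ _ (by positivity) (by positivity), div_le_iff₀ (by positivity)]
    nlinarith [mul_pos hS0 hT0, mul_pos hT0 hT0]
  · rw [h11, h12]
    apply one_div_le_one_div_of_le hT0
    nlinarith
  · rw [h11, div_le_iff₀ (by positivity)]
    linarith

/-- **The exponents.** The certificates have length `O(n ^ (a / b))`, and `O(m ^ (p / q))` for the
queries of length `m`. -/
theorem exists_nums {s t k w : ℝ} (ht : 0 < t) (hk : 1 ≤ k) (htk : t ≤ k) (hks : k ≤ s * t)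
    (hs : 1 < k * (s - 1 / t)) (hw : 1 < k * w) :
    ∃ a b p q : ℕ, 1 ≤ b ∧ b ≤ a ∧ 1 ≤ q ∧ 1 ≤ p ∧ (p : ℝ) / q ≤ t ∧ (a : ℝ) / b ≤ k ∧
      ((a : ℝ) * q) / (b * p) ≤ s ∧ (b : ℝ) / a + (q : ℝ) / p ≤ s ∧
      (b : ℝ) / a ≤ (q : ℝ) / p ∧ (b : ℝ) / a ≤ w := by
  rcases hk.eq_or_lt with rfl | hk1
  · rw [one_mul] at hs hw
    have h0 : 0 < 1 / t := by positivity
    have h1 : 1 / (s - 1) < t := by
      rw [div_lt_iff₀ (by linarith)]
      have h2 : t * (1 / t) = 1 := by field_simp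
      nlinarith
    obtain ⟨T, hT1, hT2⟩ := exists_rat_btwn h1
    have hs1 : 0 < s - 1 := by linarith
    have hT0 : (0 : ℝ) < T := (by positivity : (0 : ℝ) < 1 / (s - 1)).trans hT1
    rw [div_lt_iff₀ hs1] at hT1
    obtain ⟨p, q, hq, hp, hr⟩ := PFP.exists_nat_div hT0
    have hq0 : (0 : ℝ) < q := by exact_mod_cast hq
    have hp0 : (0 : ℝ) < p := by exact_mod_cast hp
    have e : (q : ℝ) / p = 1 / T := by
      rw [← hr]
      field_simp
    have e1 : 1 / (T : ℝ) < s - 1 := by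
      rw [div_lt_iff₀ hT0]
      linarith
    refine ⟨1, 1, p, q, le_rfl, le_rfl, hq, hp, by rw [hr]; exact hT2.le, by simp, ?_, ?_, ?_, ?_⟩
    · rw [Nat.cast_one, one_mul, one_mul, e]
      linarith
    · rw [Nat.cast_one, e]
      linarith
    · rw [Nat.cast_one, e, div_one, le_div_iff₀ hT0]
      linarith
    · rw [Nat.cast_one, div_one]
      exact hw.le
  · obtain ⟨a, b, p, q, hb, hab, hq, hp, h1, h2, h3, h4, h5⟩ :=
      exists_nums_aux1 ht htk hk1 hs hw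
    have hq0 : (0 : ℝ) < q := by exact_mod_cast hq
    have hp0 : (0 : ℝ) < p := by exact_mod_cast hp
    have hb0 : (0 : ℝ) < b := by exact_mod_cast hb
    refine ⟨a, b, p, q, hb, hab, hq, hp, h1, ?_, h2.trans ?_, h3, h4, h5⟩
    · have h6 : (a : ℝ) / b = ((a : ℝ) * q) / (b * p) * ((p : ℝ) / q) := by
        field_simp
      rw [h6]
      calc ((a : ℝ) * q) / (b * p) * ((p : ℝ) / q) ≤ (k / t) * t :=
            mul_le_mul h2 h1 (by positivity) (by positivity)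
        _ = k := by field_simp
    · rw [div_le_iff₀ ht]
      exact hks

/-- The exponents for a single query with advice. -/
theorem exists_nums_adv {s t k α : ℝ} (ht : 0 < t) (hk : 1 ≤ k) (htk : t ≤ k) (hks : k ≤ s * t)
    (hst : 1 < s * t) (hα : 1 < k * α) :
    ∃ a b p q : ℕ, 1 ≤ b ∧ b ≤ a ∧ 1 ≤ q ∧ 1 ≤ p ∧ (p : ℝ) / q ≤ t ∧ (a : ℝ) / b ≤ k ∧
      ((a : ℝ) * q) / (b * p) ≤ s ∧ (b : ℝ) / a ≤ α := by
  rcases hk.eq_or_lt with rfl | hk1
  · rw [one_mul] at hα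
    have hs0 : 0 < s := by
      by_contra h
      have h2 : s * t ≤ 0 := mul_nonpos_of_nonpos_of_nonneg (not_lt.1 h) ht.le
      linarith
    have h1 : 1 / s < t := by
      rw [div_lt_iff₀ hs0]
      linarith
    obtain ⟨T, hT1, hT2⟩ := exists_rat_btwn h1
    have hT0 : (0 : ℝ) < T := (by positivity : (0 : ℝ) < 1 / s).trans hT1
    rw [div_lt_iff₀ hs0] at hT1
    obtain ⟨p, q, hq, hp, hr⟩ := PFP.exists_nat_div hT0
    have hq0 : (0 : ℝ) < q := by exact_mod_cast hq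
    have hp0 : (0 : ℝ) < p := by exact_mod_cast hp
    have e : (q : ℝ) / p = 1 / T := by
      rw [← hr]
      field_simp
    refine ⟨1, 1, p, q, le_rfl, le_rfl, hq, hp, by rw [hr]; exact hT2.le, by simp, ?_, ?_⟩
    · rw [Nat.cast_one, one_mul, one_mul, e, div_le_iff₀ hT0]
      linarith
    · rw [Nat.cast_one, div_one]
      exact hα.le
  · have ht2 : 1 < k * (2 + 2 / t - 1 / t) := by
      have h1 : 0 < 1 / t := by positivity
      have h2 : 2 + 2 / t - 1 / t = 2 + 1 / t := by ring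
      rw [h2]
      nlinarith
    obtain ⟨a, b, p, q, hb, hab, hq, hp, h1, h2, -, -, h3⟩ :=
      exists_nums_aux1 (s := 2 + 2 / t) ht htk hk1 ht2 hα
    have hq0 : (0 : ℝ) < q := by exact_mod_cast hq
    have hp0 : (0 : ℝ) < p := by exact_mod_cast hp
    have hb0 : (0 : ℝ) < b := by exact_mod_cast hb
    refine ⟨a, b, p, q, hb, hab, hq, hp, h1, ?_, h2.trans ?_, h3⟩
    · have h6 : (a : ℝ) / b = ((a : ℝ) * q) / (b * p) * ((p : ℝ) / q) := by
        field_simp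
      rw [h6]
      calc ((a : ℝ) * q) / (b * p) * ((p : ℝ) / q) ≤ (k / t) * t :=
            mul_le_mul h2 h1 (by positivity) (by positivity)
        _ = k := by field_simp
    · rw [div_le_iff₀ ht]
      exact hks

/-- **The bound for the certificates.** Queries of length `O(n ^ u)` whose certificates have length
`O(m ^ v)` for queries of length `m` have certificates of length `O(n ^ (u v))`. -/
theorem exists_cap (C D : ℕ) {u v k : ℝ} (hu : 0 ≤ u) (hv : 0 ≤ v) (h : u * v ≤ k) :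
    ∃ E : ℕ, ∀ n m l : ℕ, (m : ℝ) ≤ C * (n : ℝ) ^ u + C → (l : ℝ) ≤ D * (m : ℝ) ^ v + D →
      (l : ℝ) ≤ E * (n : ℝ) ^ k + E := by
  refine ⟨⌈(D : ℝ) * (2 * C) ^ v⌉₊ + D, fun n m l hm hl => ?_⟩
  obtain ⟨N, hN⟩ : ∃ N : ℝ, N = max (n : ℝ) 1 := ⟨_, rfl⟩
  have hN1 : 1 ≤ N := by rw [hN]; exact le_max_right _ _
  have hnN : (n : ℝ) ≤ N := by rw [hN]; exact le_max_left _ _
  have hN0 : 0 < N := zero_lt_one.trans_le hN1
  have h1 : (n : ℝ) ^ u ≤ N ^ u := Real.rpow_le_rpow (Nat.cast_nonneg n) hnN hu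
  have h2 : 1 ≤ N ^ u := Real.one_le_rpow hN1 hu
  have hC : (0 : ℝ) ≤ C := Nat.cast_nonneg C
  have hD : (0 : ℝ) ≤ D := Nat.cast_nonneg D
  have h3 : (m : ℝ) ≤ 2 * C * N ^ u := by nlinarith
  have h4 : (m : ℝ) ^ v ≤ (2 * C) ^ v * N ^ k := by
    calc (m : ℝ) ^ v ≤ (2 * C * N ^ u) ^ v := Real.rpow_le_rpow (Nat.cast_nonneg m) h3 hv
      _ = (2 * C) ^ v * N ^ (u * v) := by
        rw [Real.mul_rpow (by positivity) (by positivity), ← Real.rpow_mul hN0.le]
      _ ≤ (2 * C) ^ v * N ^ k := mul_le_mul_of_nonneg_left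
        (Real.rpow_le_rpow_of_exponent_le hN1 h) (by positivity)
  have h5 : N ^ k ≤ (n : ℝ) ^ k + 1 := by
    rcases Nat.eq_zero_or_pos n with rfl | hn
    · have h6 : N = 1 := by rw [hN]; simp
      rw [h6, Real.one_rpow]
      have h7 : (0 : ℝ) ≤ ((0 : ℕ) : ℝ) ^ k := Real.rpow_nonneg (Nat.cast_nonneg 0) k
      linarith
    · have h6 : N = n := by
        rw [hN, max_eq_left]
        exact_mod_cast hn
      rw [h6]
      linarith
  have h6 : (0 : ℝ) ≤ (n : ℝ) ^ k := Real.rpow_nonneg (Nat.cast_nonneg n) k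
  have h7 : (D : ℝ) * (2 * C) ^ v ≤ (⌈(D : ℝ) * (2 * C) ^ v⌉₊ : ℝ) := Nat.le_ceil _
  have h8 : (0 : ℝ) ≤ (D : ℝ) * (2 * C) ^ v := by positivity
  push_cast
  calc (l : ℝ) ≤ D * (m : ℝ) ^ v + D := hl
    _ ≤ D * ((2 * C) ^ v * ((n : ℝ) ^ k + 1)) + D := by
      have h9 : (m : ℝ) ^ v ≤ (2 * C) ^ v * ((n : ℝ) ^ k + 1) :=
        h4.trans (mul_le_mul_of_nonneg_left h5 (by positivity))
      linarith [mul_le_mul_of_nonneg_left h9 hD]
    _ = (D * (2 * C) ^ v) * ((n : ℝ) ^ k + 1) + D := by ring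
    _ ≤ (⌈(D : ℝ) * (2 * C) ^ v⌉₊ + D) * (n : ℝ) ^ k + (⌈(D : ℝ) * (2 * C) ^ v⌉₊ + D) := by
      nlinarith [mul_le_mul_of_nonneg_right h7 h6, mul_nonneg hD h6]

end Pool.Agent.PFH
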