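import Pool.Agent.PFG.Upper
import Pool.Agent.PFH.Mach
import Pool.Agent.PFH.Num

/-!
An oracle relative to which `NE` relative to the oracle and its multilinear extension is decided
with few, short queries and short certificates.
-/

set_option autoImplicit false

namespace Pool.Agent.PFH

open Turing Computability Lib.helper60 MP_92db0f_lc_alg
open MP_92db0f_lc hiding answers InNEXP
open MP_92db0f_lc_thr (exists_machN)
open MP_92db0f_lc_mul (mextOracle)
open PFP (InNE Certified clf)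
open PFG (rG polyTime_rG)

/-- the bound of the certificates -/
lemma rG_le {p q : ℕ} (hq : 1 ≤ q) (hp : 1 ≤ p) {A : Set (List Bool)} {Q y : List Bool}
    (h : rG p q A (Q, y)) : (y.length : ℝ) ≤ (4 : ℕ) * (Q.length : ℝ) ^ ((p : ℝ) / q) + (4 : ℕ) := by
  have h1 := PFP.clf_le hq hp Q (le_refl ((p : ℝ) / q))
  have h2 : y.length = 4 * clf p q Q := h.1
  rw [h2]
  push_cast
  linarith

section

variable {E : ℕ → Type} [∀ i, CommRing (E i)] {len : ℕ → ℕ}
  (cod : (i : ℕ) → E i → Fin (len i) → Bool) (hcod : ∀ i, Function.Injective (cod i))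

include hcod

/-- **Many short queries.** -/
theorem ext_long {k t s r w : ℝ} (hk : 1 ≤ k) (ht : 0 < t) (htk : t ≤ k) (hkst : k ≤ s * t)
    (hs : 1 < k * (s - 1 / t)) (hr : 1 < k * r) (hw : 1 < k * w) :
    ∃ A : Set (List Bool), ∀ L, InNE (join A (mextOracle cod A)) L → ∀ α,
      InR A k t s r w α L := by
  have hs1 : 1 ≤ s := by
    by_contra h
    rw [not_le] at h
    nlinarith
  have hmin : 1 < k * min w r := by
    rcases min_choice w r with h | h <;> rw [h]
    · exact hw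
    · exact hr
  obtain ⟨a, b, p, q, hb, hab, hq, hp, h1, h2, h3, h4, h5, h6⟩ :=
    exists_nums ht hk htk hkst hs hmin
  obtain ⟨g, hg⟩ := exists_surjective_nat Mach
  obtain ⟨Y, κ, f, hκ1, hlv, hτ, hcl, hcdH, hcdV, hacc⟩ := PFG.exists_sys hb hab hq hp cod hcod g
  obtain ⟨A, H, on, hH, hon, hcodeH, hcodeV⟩ := PFG.exists_limit Y
  refine ⟨A, fun L hL α => ?_⟩
  obtain ⟨μ, hμ⟩ := exists_machN hL
  obtain ⟨e, rfl⟩ := hg μ
  have hpq : (0 : ℝ) < (p : ℝ) / q := by
    have h7 : (0 : ℝ) < p := by exact_mod_cast hp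
    have h8 : (0 : ℝ) < q := by exact_mod_cast hq
    positivity
  have hSv : max 1 (((a : ℝ) * q) / (b * p)) * ((p : ℝ) / q) ≤ k := by
    have h7 : (p : ℝ) ≠ 0 := by exact_mod_cast (by omega : p ≠ 0)
    have h8 : (q : ℝ) ≠ 0 := by exact_mod_cast (by omega : q ≠ 0)
    have h9 : (b : ℝ) ≠ 0 := by exact_mod_cast (by omega : b ≠ 0)
    have h10 : ((a : ℝ) * q) / (b * p) * ((p : ℝ) / q) = (a : ℝ) / b := by
      field_simp
    rcases max_choice 1 (((a : ℝ) * q) / (b * p)) with h | h <;> rw [h]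
    · rw [one_mul]
      exact h1.trans htk
    · rw [h10]
      exact h2
  refine InS.inR (v := (p : ℝ) / q) (S := max 1 (((a : ℝ) * q) / (b * p))) hpq h1
    (zero_le_one.trans (le_max_left _ _)) hSv ?_
  refine long_of (C₀ := 4) hb hab hp (hκ1 e) (le_max_left _ _) (le_max_right _ _)
    (max_le hs1 h3) h4 h5 (h6.trans (min_le_left _ _)) (h6.trans (min_le_right _ _))
    (polyTime_rG p q A) (fun Q y hy => rG_le hq hp hy) H ?_ ?_ α (e := e)
  · intro t u hu
    have h7 := hcodeH t u hu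
    rw [hcdH, hcl] at h7
    exact h7
  · intro x
    have h7 := hcodeV (f (e, x))
    rw [hlv, hτ, hcdV, hcl] at h7
    have h8 := (hon (f (e, x))).symm.trans (hacc A (e, x))
    change _ ↔ _ at h8
    rw [← h7] at h8
    rw [hμ x]
    exact h8.symm

/-- **One query with advice.** -/
theorem ext_adv {k t s α : ℝ} (hk : 1 ≤ k) (ht : 0 < t) (htk : t ≤ k) (hkst : k ≤ s * t)
    (hst : 1 < s * t) (hα : 1 < k * α) :
    ∃ A : Set (List Bool), ∀ L, InNE (join A (mextOracle cod A)) L → ∀ r w,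
      InR A k t s r w α L := by
  have hs1 : 1 ≤ s := by
    by_contra h
    rw [not_le] at h
    nlinarith
  obtain ⟨a, b, p, q, hb, hab, hq, hp, h1, h2, h3, h4⟩ := exists_nums_adv ht hk htk hkst hst hα
  obtain ⟨g, hg⟩ := exists_surjective_nat Mach
  obtain ⟨Y, κ, f, hκ1, hlv, hτ, hcl, hcdH, hcdV, hacc⟩ := PFG.exists_sys hb hab hq hp cod hcod g
  obtain ⟨A, H, on, hH, hon, hcodeH, hcodeV⟩ := PFG.exists_limit Y
  refine ⟨A, fun L hL r w => ?_⟩
  obtain ⟨μ, hμ⟩ := exists_machN hL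
  obtain ⟨e, rfl⟩ := hg μ
  have hpq : (0 : ℝ) < (p : ℝ) / q := by
    have h7 : (0 : ℝ) < p := by exact_mod_cast hp
    have h8 : (0 : ℝ) < q := by exact_mod_cast hq
    positivity
  have hSv : max 1 (((a : ℝ) * q) / (b * p)) * ((p : ℝ) / q) ≤ k := by
    have h7 : (p : ℝ) ≠ 0 := by exact_mod_cast (by omega : p ≠ 0)
    have h8 : (q : ℝ) ≠ 0 := by exact_mod_cast (by omega : q ≠ 0)
    have h9 : (b : ℝ) ≠ 0 := by exact_mod_cast (by omega : b ≠ 0)
    have h10 : ((a : ℝ) * q) / (b * p) * ((p : ℝ) / q) = (a : ℝ) / b := by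
      field_simp
    rcases max_choice 1 (((a : ℝ) * q) / (b * p)) with h | h <;> rw [h]
    · rw [one_mul]
      exact h1.trans htk
    · rw [h10]
      exact h2
  refine InS.inR (v := (p : ℝ) / q) (S := max 1 (((a : ℝ) * q) / (b * p))) hpq h1
    (zero_le_one.trans (le_max_left _ _)) hSv ?_
  refine adv_of (C₀ := 4) hb hab hp (hκ1 e) (le_max_left _ _) (le_max_right _ _)
    (max_le hs1 h3) h4 (polyTime_rG p q A) (fun Q y hy => rG_le hq hp hy) H ?_ r w (e := e)
  intro x
  have h7 := hcodeV (f (e, x))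
  rw [hlv, hτ, hcdV, hcl] at h7
  have h8 := (hon (f (e, x))).symm.trans (hacc A (e, x))
  change _ ↔ _ at h8
  rw [← h7] at h8
  rw [hμ x]
  exact h8.symm

end

/-- **The upper bound** for the oracle with its multilinear extension. -/
theorem upper_ext {k t s r w α : ℝ} (hk : 1 ≤ k) (ht : 0 < t) (htk : t ≤ k) (hkst : k ≤ s * t)
    (hst : 1 < s * t)
    (h : 1 < k * α ∨ (1 < k * (s - 1 / t) ∧ 1 < k * r ∧ 1 < k * w))
    {E : ℕ → Type} [∀ i, CommRing (E i)] {len : ℕ → ℕ}
    (cod : (i : ℕ) → E i → Fin (len i) → Bool) (hcod : ∀ i, Function.Injective (cod i)) :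
    ∃ A : Set (List Bool), ∀ L, InNE (join A (mextOracle cod A)) L → InR A k t s r w α L := by
  rcases h with h | ⟨h1, h2, h3⟩
  · obtain ⟨A, hA⟩ := ext_adv cod hcod hk ht htk hkst hst h
    exact ⟨A, fun L hL => hA L hL r w⟩
  · obtain ⟨A, hA⟩ := ext_long cod hcod hk ht htk hkst h1 h2 h3
    exact ⟨A, fun L hL => hA L hL α⟩

end Pool.Agent.PFH
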